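import Mathlib
import Pool.Agent.H75R3.Khin

/-!
`ℓ_1^k` does not factor uniformly through `c_0`.
-/

open Finset Filter Topology
open scoped ZeroAtInfty

set_option maxHeartbeats 400000

namespace Pool.Agent.R247.SX

variable {𝕜 : Type} [RCLike 𝕜]

/-- the norm preserving embedding of the scalars in the complex numbers -/
noncomputable def toC (z : 𝕜) : ℂ := ⟨RCLike.re z, RCLike.im z⟩

theorem toC_norm (z : 𝕜) : ‖toC z‖ = ‖z‖ := by
  have h1 : ‖toC z‖ ^ 2 = ‖z‖ ^ 2 := by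
    rw [← Complex.normSq_eq_norm_sq, Complex.normSq_apply, RCLike.norm_sq_eq_def]
    rfl
  exact (sq_eq_sq₀ (norm_nonneg _) (norm_nonneg _)).mp h1

theorem toC_sum (s u : Finset ℕ) (b : ℕ → 𝕜) :
    toC (∑ m ∈ s, (if m ∈ u then (1 : 𝕜) else -1) * b m) = H75R3.sg s u (fun m => toC (b m)) := by
  unfold H75R3.sg toC
  apply Complex.ext
  · rw [Complex.re_sum]
    simp only
    rw [map_sum]
    apply sum_congr rfl
    intro m _
    split_ifs <;> simp
  · rw [Complex.im_sum]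
    simp only
    rw [map_sum]
    apply sum_congr rfl
    intro m _
    split_ifs <;> simp

theorem khin (s : Finset ℕ) (b : ℕ → 𝕜) :
    (5 / 9) * 2 ^ s.card * Real.sqrt (∑ m ∈ s, ‖b m‖ ^ 2) ≤
      ∑ u ∈ s.powerset, ‖∑ m ∈ s, (if m ∈ u then (1 : 𝕜) else -1) * b m‖ := by
  have h := H75R3.khintchine s (fun m => toC (b m))
  simp_rw [← toC_sum, toC_norm] at h
  exact h

/-- the unit vectors of `c_0` -/
noncomputable def dl (l : ℕ) : C₀(ℕ, 𝕜) where
  toFun := Pi.single l 1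
  continuous_toFun := continuous_of_discreteTopology
  zero_at_infty' := by
    rw [Filter.cocompact_eq_cofinite, Nat.cofinite_eq_atTop]
    apply tendsto_const_nhds.congr'
    filter_upwards [eventually_gt_atTop l] with m hm
    rw [Pi.single_eq_of_ne hm.ne']

theorem dl_apply (l m : ℕ) : (dl l : C₀(ℕ, 𝕜)) m = if m = l then 1 else 0 := by
  show (Pi.single l (1 : 𝕜) : ℕ → 𝕜) m = _
  rw [Pi.single_apply]

theorem c0_norm_le {x : C₀(ℕ, 𝕜)} {C : ℝ} (hC : 0 ≤ C) (h : ∀ m, ‖x m‖ ≤ C) : ‖x‖ ≤ C := by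
  rw [← ZeroAtInftyContinuousMap.norm_toBCF_eq_norm]
  exact (BoundedContinuousFunction.norm_le hC).mpr h

theorem c0_coord_le (x : C₀(ℕ, 𝕜)) (m : ℕ) : ‖x m‖ ≤ ‖x‖ := by
  rw [← ZeroAtInftyContinuousMap.norm_toBCF_eq_norm]
  exact BoundedContinuousFunction.norm_coe_le_norm x.toBCF m

theorem sum_dl_apply (M : ℕ) (c : ℕ → 𝕜) (m : ℕ) :
    (∑ l ∈ range M, c l • (dl l : C₀(ℕ, 𝕜))) m = if m < M then c m else 0 := by
  have h : ∀ s : Finset ℕ, (∑ l ∈ s, c l • (dl l : C₀(ℕ, 𝕜))) m = if m ∈ s then c m else 0 := by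
    intro s
    induction s using Finset.induction_on with
    | empty => simp
    | insert a s ha ih =>
      rw [sum_insert ha, ZeroAtInftyContinuousMap.add_apply, ih,
        ZeroAtInftyContinuousMap.smul_apply, dl_apply]
      by_cases hm : m = a
      · subst hm
        simp [ha]
      · simp [hm]
  rw [h]
  simp

theorem trunc_tendsto (x : C₀(ℕ, 𝕜)) :
    Tendsto (fun M => ∑ l ∈ range M, x l • (dl l : C₀(ℕ, 𝕜))) atTop (𝓝 x) := by
  rw [Metric.tendsto_atTop]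
  intro ε hε
  have h0 : Tendsto (fun m : ℕ => x m) atTop (𝓝 0) := by
    have := x.zero_at_infty'
    rw [Filter.cocompact_eq_cofinite, Nat.cofinite_eq_atTop] at this
    exact this
  rw [Metric.tendsto_atTop] at h0
  obtain ⟨M0, hM0⟩ := h0 (ε / 2) (by positivity)
  refine ⟨M0, fun M hM => ?_⟩
  rw [dist_eq_norm]
  refine lt_of_le_of_lt (c0_norm_le (C := ε / 2) (by positivity) fun m => ?_) (by linarith)
  rw [ZeroAtInftyContinuousMap.sub_apply, sum_dl_apply]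
  split_ifs with h
  · rw [sub_self, norm_zero]; positivity
  · have := hM0 m (by omega)
    rw [dist_zero_right] at this
    rw [zero_sub, norm_neg]
    exact this.le

theorem sign_bound (k : ℕ) (Φ : ℕ → (C₀(ℕ, 𝕜) →L[𝕜] 𝕜)) (a : ℝ)
    (hΦ : ∀ x, ∑ i ∈ range k, ‖Φ i x‖ ≤ a * ‖x‖) (ha : 0 ≤ a) (u : Finset ℕ) (M : ℕ) :
    ∑ l ∈ range M, ‖∑ i ∈ range k, (if i ∈ u then (1 : 𝕜) else -1) * Φ i (dl l)‖ ≤ a := by
  set y : ℕ → 𝕜 := fun l => ∑ i ∈ range k, (if i ∈ u then (1 : 𝕜) else -1) * Φ i (dl l) with hy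
  -- unimodular multipliers
  have hθ : ∀ l, ∃ θ : 𝕜, ‖θ‖ ≤ 1 ∧ θ * y l = (‖y l‖ : 𝕜) := by
    intro l
    by_cases h : y l = 0
    · exact ⟨0, by simp, by rw [h]; simp⟩
    · refine ⟨(‖y l‖ : 𝕜) / y l, ?_, ?_⟩
      · rw [norm_div, RCLike.norm_ofReal, abs_norm, div_self (norm_ne_zero_iff.mpr h)]
      · rw [div_mul_cancel₀ _ h]
  choose θ hθ1 hθ2 using hθ
  set x : C₀(ℕ, 𝕜) := ∑ l ∈ range M, θ l • dl l with hx
  have hx1 : ‖x‖ ≤ 1 := c0_norm_le zero_le_one fun m => by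
    rw [hx, sum_dl_apply]
    split_ifs
    · exact hθ1 m
    · rw [norm_zero]; exact zero_le_one
  have h1 : ((∑ l ∈ range M, ‖y l‖ : ℝ) : 𝕜) =
      ∑ i ∈ range k, (if i ∈ u then (1 : 𝕜) else -1) * Φ i x := by
    rw [RCLike.ofReal_sum]
    simp_rw [← hθ2]
    rw [hx]
    simp_rw [map_sum, map_smul, mul_sum]
    rw [sum_comm]
    apply sum_congr rfl
    intro l _
    rw [hy]
    simp only
    rw [mul_sum]
    apply sum_congr rfl
    intro i _
    rw [smul_eq_mul]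
    ring
  have h2 : (∑ l ∈ range M, ‖y l‖ : ℝ) = ‖((∑ l ∈ range M, ‖y l‖ : ℝ) : 𝕜)‖ := by
    rw [RCLike.norm_ofReal, abs_of_nonneg (sum_nonneg fun l _ => norm_nonneg _)]
  rw [h2, h1]
  calc ‖∑ i ∈ range k, (if i ∈ u then (1 : 𝕜) else -1) * Φ i x‖
      ≤ ∑ i ∈ range k, ‖(if i ∈ u then (1 : 𝕜) else -1) * Φ i x‖ := norm_sum_le _ _
    _ = ∑ i ∈ range k, ‖Φ i x‖ := by
        apply sum_congr rfl
        intro i _
        rw [norm_mul]
        split_ifs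
        · rw [norm_one, one_mul]
        · rw [norm_neg, norm_one, one_mul]
    _ ≤ a * ‖x‖ := hΦ x
    _ ≤ a := by nlinarith

theorem no_factor (k : ℕ) (Φ : ℕ → (C₀(ℕ, 𝕜) →L[𝕜] 𝕜)) (b : ℕ → C₀(ℕ, 𝕜)) (a β : ℝ)
    (ha : 0 ≤ a) (hβ : 0 ≤ β)
    (hΦ : ∀ x, ∑ i ∈ range k, ‖Φ i x‖ ≤ a * ‖x‖) (hb : ∀ i ∈ range k, ‖b i‖ ≤ β)
    (h : ∀ i ∈ range k, 1 / 2 ≤ ‖Φ i (b i)‖) :
    (k : ℝ) / 4 ≤ β * (Real.sqrt k * (9 / 5 * a)) := by
  classical
  -- a common truncation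
  have htr : ∀ i, ∃ M0, ∀ M, M0 ≤ M →
      ‖Φ i (∑ l ∈ range M, b i l • (dl l : C₀(ℕ, 𝕜))) - Φ i (b i)‖ < 1 / 4 := by
    intro i
    have h1 := ((Φ i).continuous.tendsto (b i)).comp (trunc_tendsto (b i))
    rw [Metric.tendsto_atTop] at h1
    obtain ⟨M0, hM0⟩ := h1 (1 / 4) (by norm_num)
    exact ⟨M0, fun M hM => by simpa [dist_eq_norm] using hM0 M hM⟩
  choose M0 hM0 using htr
  set M := (range k).sup M0 with hM
  have hl : ∀ i ∈ range k, 1 / 4 ≤ β * ∑ l ∈ range M, ‖Φ i (dl l)‖ := by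
    intro i hi
    have h1 := hM0 i M (Finset.le_sup hi)
    have h2 := h i hi
    have h3 : ‖Φ i (∑ l ∈ range M, b i l • (dl l : C₀(ℕ, 𝕜)))‖ ≤
        β * ∑ l ∈ range M, ‖Φ i (dl l)‖ := by
      rw [map_sum, mul_sum]
      refine (norm_sum_le _ _).trans (sum_le_sum fun l _ => ?_)
      rw [map_smul, norm_smul]
      exact mul_le_mul_of_nonneg_right ((c0_coord_le _ l).trans (hb i hi)) (norm_nonneg _)
    have h4 := norm_sub_norm_le (Φ i (b i)) (Φ i (∑ l ∈ range M, b i l • (dl l : C₀(ℕ, 𝕜))))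
    rw [norm_sub_rev] at h4
    linarith
  have h5 : (k : ℝ) / 4 ≤ β * ∑ l ∈ range M, ∑ i ∈ range k, ‖Φ i (dl l)‖ := by
    rw [sum_comm, mul_sum]
    calc (k : ℝ) / 4 = ∑ i ∈ range k, (1 / 4 : ℝ) := by
          rw [sum_const, card_range, nsmul_eq_mul]; ring
      _ ≤ _ := sum_le_sum hl
  refine h5.trans (mul_le_mul_of_nonneg_left ?_ hβ)
  -- Cauchy-Schwarz
  have h6 : ∀ l, ∑ i ∈ range k, ‖Φ i (dl l)‖ ≤
      Real.sqrt k * Real.sqrt (∑ i ∈ range k, ‖Φ i (dl l : C₀(ℕ, 𝕜))‖ ^ 2) := by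
    intro l
    rw [← Real.sqrt_mul (by positivity)]
    apply Real.le_sqrt_of_sq_le
    have := sq_sum_le_card_mul_sum_sq (s := range k) (f := fun i => ‖Φ i (dl l : C₀(ℕ, 𝕜))‖)
    rw [card_range] at this
    exact this
  calc ∑ l ∈ range M, ∑ i ∈ range k, ‖Φ i (dl l)‖
      ≤ ∑ l ∈ range M, Real.sqrt k * Real.sqrt (∑ i ∈ range k, ‖Φ i (dl l : C₀(ℕ, 𝕜))‖ ^ 2) :=
        sum_le_sum fun l _ => h6 l
    _ = Real.sqrt k * ∑ l ∈ range M, Real.sqrt (∑ i ∈ range k, ‖Φ i (dl l : C₀(ℕ, 𝕜))‖ ^ 2) := by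
        rw [mul_sum]
    _ ≤ Real.sqrt k * (9 / 5 * a) := by
        apply mul_le_mul_of_nonneg_left _ (Real.sqrt_nonneg _)
        have h7 : ∑ l ∈ range M, (5 / 9) * 2 ^ k *
            Real.sqrt (∑ i ∈ range k, ‖Φ i (dl l : C₀(ℕ, 𝕜))‖ ^ 2) ≤ 2 ^ k * a := by
          calc _ ≤ ∑ l ∈ range M, ∑ u ∈ (range k).powerset,
                ‖∑ i ∈ range k, (if i ∈ u then (1 : 𝕜) else -1) * Φ i (dl l)‖ := by
                apply sum_le_sum
                intro l _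
                have := khin (range k) (fun i => Φ i (dl l : C₀(ℕ, 𝕜)))
                rwa [card_range] at this
            _ = ∑ u ∈ (range k).powerset, ∑ l ∈ range M,
                ‖∑ i ∈ range k, (if i ∈ u then (1 : 𝕜) else -1) * Φ i (dl l)‖ := sum_comm
            _ ≤ ∑ _u ∈ (range k).powerset, a :=
                sum_le_sum fun u _ => sign_bound k Φ a hΦ ha u M
            _ = 2 ^ k * a := by
                rw [sum_const, card_powerset, card_range, nsmul_eq_mul]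
                push_cast
                ring
        rw [← mul_sum] at h7
        have h8 : (0 : ℝ) < 2 ^ k := by positivity
        have h9 : 5 / 9 * ∑ l ∈ range M, Real.sqrt (∑ i ∈ range k, ‖Φ i (dl l : C₀(ℕ, 𝕜))‖ ^ 2)
            ≤ a := by
          have : 2 ^ k * (5 / 9 * ∑ l ∈ range M,
              Real.sqrt (∑ i ∈ range k, ‖Φ i (dl l : C₀(ℕ, 𝕜))‖ ^ 2)) ≤ 2 ^ k * a := by
            linarith
          exact le_of_mul_le_mul_left this h8
        linarith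

end Pool.Agent.R247.SX
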