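import Pool.Agent.R247.SX.TT

/-!
The strictly singular operator of `TT.lean` is not a limit of operators that factor through `c_0`.
-/

open Finset Filter Topology
open scoped ZeroAtInfty

set_option maxHeartbeats 400000

namespace Pool.Agent.R247.SX

variable {𝕜 : Type} [RCLike 𝕜]

theorem Dat.fn_sum_ix_le {n : ℕ} {N : Set ℕ+} {w : Idx → (ℕ+ →₀ ℝ)} (hw : Sys n N w) (d : Dat)
    (k : ℕ) (x : X 𝕜 n) :
    ∑ S : {S // S ∈ (d.I k).powerset}, ‖fn n w (d.ix k S) x‖ ≤ ‖x‖ := by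
  classical
  refine le_trans ?_ (fn_sum_le hw (d.M k) x)
  have e1 : ∑ S : {S // S ∈ (d.I k).powerset}, ‖fn n w (d.ix k S) x‖ =
      ∑ i ∈ (univ : Finset {S // S ∈ (d.I k).powerset}).map (d.e k), ‖fn n w ⟨d.M k, i⟩ x‖ := by
    rw [sum_map]; rfl
  rw [e1]
  exact sum_le_sum_of_subset_of_nonneg (subset_univ _) fun i _ _ => norm_nonneg _

theorem Dat.fn_T {n : ℕ} (hn : 1 ≤ n) {N : Set ℕ+} {w : Idx → (ℕ+ →₀ ℝ)} (hw : Sys n N w)
    (d : Dat) {k : ℕ} (S : {S // S ∈ (d.I k).powerset}) {j : ℕ+} (hj : j ∈ d.I k) :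
    fn n w (d.ix k S) (d.T n w (inc 𝕜 n (Finsupp.single j 1))) =
      Dat.sn 𝕜 S.1 j / 2 ^ (d.I k).card := by
  classical
  rw [d.T_inc hn hw, fn_inc hw, Qm_J hw, d.D_ix]
  congr 1
  rw [sum_eq_single_of_mem j hj]
  · simp
  · intro i _ hne
    rw [Finsupp.single_apply, if_neg (Ne.symm hne), mul_zero]

theorem Dat.not_mem_closure {n : ℕ} (hn : 1 ≤ n) {N : Set ℕ+} {w : Idx → (ℕ+ →₀ ℝ)}
    (hw : Sys n N w) (d : Dat) (c : ℕ → ℕ+ → ℝ) (hc0 : ∀ k j, 0 ≤ c k j)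
    (hc : ∀ k, ∀ E ∈ Sch n, ∑ j ∈ E, c k j ≤ 1) (hcs : ∀ k, ∑ j ∈ d.I k, c k j = 2 ^ k / 3) :
    (d.T n w : X 𝕜 n →L[𝕜] X 𝕜 n) ∉ closure (factC0 𝕜 n) := by
  classical
  intro hmem
  rw [Metric.mem_closure_iff] at hmem
  obtain ⟨S', ⟨A, B, hSAB⟩, hS⟩ := hmem (1 / 2) (by norm_num)
  obtain rfl : S' = A ∘L B := ContinuousLinearMap.ext hSAB
  rw [dist_eq_norm] at hS
  set T : X 𝕜 n →L[𝕜] X 𝕜 n := d.T n w with hT
  have hA0 : 0 ≤ ‖A‖ := A.opNorm_nonneg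
  have hB0 : 0 ≤ ‖B‖ := B.opNorm_nonneg
  -- the main inequality for each k
  have key : ∀ k : ℕ, (2 ^ k / 3 : ℝ) ≤ 2 ^ k / 3 / 2 +
      384 * ‖A‖ * ((‖B‖ + 1) * Real.sqrt (2 ^ k / 3)) := by
    intro k
    set L : ℝ := 2 ^ k / 3 with hL
    have hL0 : 0 < L := by positivity
    let Φ : {S // S ∈ (d.I k).powerset} → (C₀(ℕ, 𝕜) →L[𝕜] 𝕜) := fun S =>
      (fn n w (d.ix k S)) ∘L A
    have hΦ : ∀ x, ∑ S, ‖Φ S x‖ ≤ ‖A‖ * ‖x‖ := fun x =>
      (d.fn_sum_ix_le hw k (A x)).trans (A.le_opNorm x)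
    have hcsum : ∑ j : {j // j ∈ d.I k}, c k j.1 = L := by
      rw [Finset.sum_coe_sort (d.I k) (fun j => c k j)]; exact hcs k
    have G1 := groth_c0 (𝕜 := 𝕜) (ι := {j // j ∈ d.I k}) Φ ‖A‖ hΦ hA0
      (fun j => B (inc 𝕜 n (Finsupp.single j.1 1))) (fun S j => Dat.sn 𝕜 S.1 j.1)
      (fun j => Real.sqrt (c k j.1)) (β := ‖B‖ + 1) (σ := Real.sqrt L) (by positivity)
      (Real.sqrt_pos.mpr hL0) (by
        intro l
        have h1 := weight_bound (c k) (hc0 k) (hc k) (d.I k) B l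
        rw [← Finset.sum_coe_sort (d.I k)
          (fun j => c k j * ‖B (inc 𝕜 n (Finsupp.single j 1)) l‖ ^ 2)] at h1
        refine le_trans (le_of_eq (sum_congr rfl fun j _ => ?_)) (h1.trans ?_)
        · rw [Real.sq_sqrt (hc0 k _)]
        · exact pow_le_pow_left₀ hB0 (by linarith) 2) (by
        intro S
        rw [Real.sq_sqrt hL0.le]
        refine le_of_eq ?_
        rw [← hcsum]
        apply sum_congr rfl
        intro j _
        rw [Real.sq_sqrt (hc0 k _), Dat.norm_sn]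
        ring)
    -- the value for T
    have G2 : ∑ j : {j // j ∈ d.I k}, ((Real.sqrt (c k j.1) ^ 2 : ℝ) : 𝕜) *
        ∑ S : {S // S ∈ (d.I k).powerset}, Dat.sn 𝕜 S.1 j.1 *
          fn n w (d.ix k S) (T (inc 𝕜 n (Finsupp.single j.1 1))) = (L : 𝕜) := by
      rw [← hcsum, RCLike.ofReal_sum]
      apply sum_congr rfl
      intro j _
      rw [Real.sq_sqrt (hc0 k _)]
      have h1 : ∑ S : {S // S ∈ (d.I k).powerset}, Dat.sn 𝕜 S.1 j.1 *
          fn n w (d.ix k S) (T (inc 𝕜 n (Finsupp.single j.1 1))) = 1 := by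
        have h2 : ∀ S : {S // S ∈ (d.I k).powerset}, Dat.sn 𝕜 S.1 j.1 *
            fn n w (d.ix k S) (T (inc 𝕜 n (Finsupp.single j.1 1))) =
            1 / 2 ^ (d.I k).card := by
          intro S
          rw [hT, d.fn_T hn hw S j.2, ← mul_div_assoc, Dat.sn_mul_self]
        rw [sum_congr rfl (fun S _ => h2 S), sum_const, card_univ, Fintype.card_coe,
          card_powerset, nsmul_eq_mul]
        push_cast
        field_simp
      rw [h1, mul_one]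
    -- the difference
    have G3 : ‖∑ j : {j // j ∈ d.I k}, ((Real.sqrt (c k j.1) ^ 2 : ℝ) : 𝕜) *
        ∑ S : {S // S ∈ (d.I k).powerset}, Dat.sn 𝕜 S.1 j.1 *
          fn n w (d.ix k S) ((T - A ∘L B) (inc 𝕜 n (Finsupp.single j.1 1)))‖ ≤ L / 2 := by
      calc _ ≤ ∑ j : {j // j ∈ d.I k}, c k j.1 * (1 / 2) := by
            refine (norm_sum_le _ _).trans (sum_le_sum fun j _ => ?_)
            rw [norm_mul, RCLike.norm_ofReal, Real.sq_sqrt (hc0 k _), abs_of_nonneg (hc0 k _)]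
            apply mul_le_mul_of_nonneg_left _ (hc0 k _)
            calc _ ≤ ∑ S : {S // S ∈ (d.I k).powerset},
                  ‖fn n w (d.ix k S) ((T - A ∘L B) (inc 𝕜 n (Finsupp.single j.1 1)))‖ := by
                  refine (norm_sum_le _ _).trans (le_of_eq (sum_congr rfl fun S _ => ?_))
                  rw [norm_mul, Dat.norm_sn, one_mul]
              _ ≤ ‖(T - A ∘L B) (inc 𝕜 n (Finsupp.single j.1 1))‖ := d.fn_sum_ix_le hw k _
              _ ≤ ‖T - A ∘L B‖ * ‖inc 𝕜 n (Finsupp.single j.1 1)‖ :=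
                  ContinuousLinearMap.le_opNorm _ _
              _ ≤ 1 / 2 := by
                  rw [inc_norm]
                  have h1 := nrm_single_le (𝕜 := 𝕜) n j.1
                  have h2 := nrm_nonneg n (Finsupp.single j.1 (1 : 𝕜))
                  have h3 := norm_nonneg (T - A ∘L B)
                  nlinarith
        _ = L / 2 := by rw [← sum_mul, hcsum]; ring
    have G4 : (L : 𝕜) = ∑ j : {j // j ∈ d.I k}, ((Real.sqrt (c k j.1) ^ 2 : ℝ) : 𝕜) *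
        ∑ S : {S // S ∈ (d.I k).powerset}, Dat.sn 𝕜 S.1 j.1 *
          fn n w (d.ix k S) ((T - A ∘L B) (inc 𝕜 n (Finsupp.single j.1 1))) +
        ∑ j : {j // j ∈ d.I k}, ((Real.sqrt (c k j.1) ^ 2 : ℝ) : 𝕜) *
        ∑ S : {S // S ∈ (d.I k).powerset}, Dat.sn 𝕜 S.1 j.1 *
          Φ S (B (inc 𝕜 n (Finsupp.single j.1 1))) := by
      rw [← G2, ← sum_add_distrib]
      apply sum_congr rfl
      intro j _
      rw [← mul_add, ← sum_add_distrib]
      congr 1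
      apply sum_congr rfl
      intro S _
      rw [← mul_add]
      congr 1
      rw [_root_.sub_apply, map_sub]
      show _ = _ - _ + fn n w (d.ix k S) (A (B (inc 𝕜 n (Finsupp.single j.1 1))))
      rw [ContinuousLinearMap.comp_apply]
      abel
    have G5 : L = ‖(L : 𝕜)‖ := by rw [RCLike.norm_ofReal, abs_of_pos hL0]
    calc L = ‖(L : 𝕜)‖ := G5
      _ ≤ L / 2 + 384 * ‖A‖ * ((‖B‖ + 1) * Real.sqrt L) := by
          rw [G4]
          exact (norm_add_le _ _).trans (add_le_add G3 G1)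
  -- contradiction for large k
  obtain ⟨k, hk⟩ := pow_unbounded_of_one_lt (3 * (768 * ‖A‖ * (‖B‖ + 1)) ^ 2) (one_lt_two (α := ℝ))
  have h1 := key k
  set L : ℝ := 2 ^ k / 3 with hL
  have hL0 : 0 < L := by positivity
  set s := Real.sqrt L with hs
  have hs2 : s ^ 2 = L := Real.sq_sqrt hL0.le
  have hs0 : 0 < s := Real.sqrt_pos.mpr hL0
  have h2 : s * s ≤ s * (768 * ‖A‖ * (‖B‖ + 1)) := by nlinarith
  have h3 : s ≤ 768 * ‖A‖ * (‖B‖ + 1) := le_of_mul_le_mul_left h2 hs0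
  have h4 : s ^ 2 ≤ (768 * ‖A‖ * (‖B‖ + 1)) ^ 2 := pow_le_pow_left₀ hs0.le h3 2
  rw [hs2, hL] at h4
  linarith

theorem main2 (𝕜 : Type) [RCLike 𝕜] (n : ℕ) (hn : 1 ≤ n) :
    ∃ T : Op 𝕜 n, StrictlySingular T ∧ T ∉ closure (factC0 𝕜 n) := by
  obtain ⟨m, rfl⟩ : ∃ m, n = m + 1 := ⟨n - 1, by omega⟩
  obtain ⟨w, hw⟩ := exists_sys m Set.univ Set.infinite_univ
  obtain ⟨I, c, hI, hc0, hc, hcs⟩ := exists_groups hw
  obtain ⟨d, rfl⟩ := exists_dat I hI
  exact ⟨d.T (m + 1) w, d.T_ss hn hw, d.not_mem_closure hn hw c hc0 hc hcs⟩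

end Pool.Agent.R247.SX
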