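import Pool.Agent.R247.SX.CZero
import Pool.Agent.H758R2.Groth

/-!
A consequence of Grothendieck's inequality for operators from `c_0` to finite-dimensional `ℓ_1`.
-/

open Finset Filter Topology
open scoped ZeroAtInfty

set_option maxHeartbeats 400000

namespace Pool.Agent.R247.SX

variable {𝕜 : Type} [RCLike 𝕜]

theorem toC_add (z w : 𝕜) : toC (z + w) = toC z + toC w := by
  apply Complex.ext <;> simp [toC]

theorem toC_mul (z w : 𝕜) : toC (z * w) = toC z * toC w := by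
  apply Complex.ext <;> simp [toC]

theorem toC_finsum {ι : Type*} (s : Finset ι) (f : ι → 𝕜) :
    toC (∑ i ∈ s, f i) = ∑ i ∈ s, toC (f i) := by
  classical
  induction s using Finset.induction_on with
  | empty => apply Complex.ext <;> simp [toC]
  | insert a s ha ih => rw [sum_insert ha, sum_insert ha, toC_add, ih]

theorem toC_ofReal (r : ℝ) : toC ((r : ℝ) : 𝕜) = (r : ℂ) := by
  apply Complex.ext <;> simp [toC]

theorem bound_real {κ : Type} [Fintype κ] (Φ : κ → (C₀(ℕ, 𝕜) →L[𝕜] 𝕜)) (a : ℝ)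
    (hΦ : ∀ x, ∑ ω, ‖Φ ω x‖ ≤ a * ‖x‖) (ha : 0 ≤ a) (N : ℕ) (x : Fin N → ℝ) (y : κ → ℝ)
    (hx : ∀ n, |x n| ≤ 1) (hy : ∀ ω, |y ω| ≤ 1) :
    ‖∑ n : Fin N, ∑ ω, toC (Φ ω (dl n)) * (x n : ℂ) * (y ω : ℂ)‖ ≤ a := by
  have h1 : ∑ n : Fin N, ∑ ω, toC (Φ ω (dl n)) * (x n : ℂ) * (y ω : ℂ) =
      toC (∑ ω, (y ω : 𝕜) * Φ ω (∑ n : Fin N, (x n : 𝕜) • (dl n : C₀(ℕ, 𝕜)))) := by
    rw [toC_finsum, sum_comm]
    apply sum_congr rfl
    intro ω _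
    rw [map_sum, mul_sum, toC_finsum]
    apply sum_congr rfl
    intro n _
    rw [map_smul, smul_eq_mul, toC_mul, toC_mul, toC_ofReal, toC_ofReal]
    ring
  have h2 : ‖(∑ n : Fin N, (x n : 𝕜) • (dl n : C₀(ℕ, 𝕜)))‖ ≤ 1 := by
    have h3 : ∑ n : Fin N, (x n : 𝕜) • (dl n : C₀(ℕ, 𝕜)) =
        ∑ l ∈ range N, (if h : l < N then (x ⟨l, h⟩ : 𝕜) else 0) • (dl l : C₀(ℕ, 𝕜)) := by
      rw [Finset.sum_range]
      apply sum_congr rfl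
      intro n _
      rw [dif_pos n.2]
    rw [h3]
    refine c0_norm_le zero_le_one fun m => ?_
    rw [sum_dl_apply N (fun l => if h : l < N then (x ⟨l, h⟩ : 𝕜) else 0) m]
    split_ifs with h
    · rw [RCLike.norm_ofReal]; exact hx _
    · rw [norm_zero]; exact zero_le_one
  rw [h1, toC_norm]
  calc ‖∑ ω, (y ω : 𝕜) * Φ ω (∑ n : Fin N, (x n : 𝕜) • (dl n : C₀(ℕ, 𝕜)))‖
      ≤ ∑ ω, ‖Φ ω (∑ n : Fin N, (x n : 𝕜) • (dl n : C₀(ℕ, 𝕜)))‖ := by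
        refine (norm_sum_le _ _).trans (sum_le_sum fun ω _ => ?_)
        rw [norm_mul, RCLike.norm_ofReal]
        exact mul_le_of_le_one_left (norm_nonneg _) (hy ω)
    _ ≤ a * ‖(∑ n : Fin N, (x n : 𝕜) • (dl n : C₀(ℕ, 𝕜)))‖ := hΦ _
    _ ≤ a := mul_le_of_le_one_right ha h2

theorem bbound {κ : Type} [Fintype κ] (Φ : κ → (C₀(ℕ, 𝕜) →L[𝕜] 𝕜)) (a : ℝ)
    (hΦ : ∀ x, ∑ ω, ‖Φ ω x‖ ≤ a * ‖x‖) (ha : 0 ≤ a) (N : ℕ) :
    Pool.Agent.H758R2.Groth.BBound (fun (n : Fin N) (ω : κ) => toC (Φ ω (dl n))) (4 * a) := by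
  intro x y hx hy
  have key := fun (x' : Fin N → ℝ) (y' : κ → ℝ) (hx' : ∀ n, |x' n| ≤ 1) (hy' : ∀ ω, |y' ω| ≤ 1) =>
    bound_real Φ a hΦ ha N x' y' hx' hy'
  have h1 : ∑ n : Fin N, ∑ ω, toC (Φ ω (dl n)) * x n * y ω =
      ((∑ n : Fin N, ∑ ω, toC (Φ ω (dl n)) * ((x n).re : ℂ) * ((y ω).re : ℂ)) +
      Complex.I * (∑ n : Fin N, ∑ ω, toC (Φ ω (dl n)) * ((x n).re : ℂ) * ((y ω).im : ℂ))) +
      (Complex.I * (∑ n : Fin N, ∑ ω, toC (Φ ω (dl n)) * ((x n).im : ℂ) * ((y ω).re : ℂ)) -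
      (∑ n : Fin N, ∑ ω, toC (Φ ω (dl n)) * ((x n).im : ℂ) * ((y ω).im : ℂ))) := by
    simp only [mul_sum, ← sum_add_distrib, ← sum_sub_distrib]
    refine sum_congr rfl fun n _ => sum_congr rfl fun ω _ => ?_
    conv_lhs => rw [← Complex.re_add_im (x n), ← Complex.re_add_im (y ω)]
    linear_combination (toC (Φ ω (dl (n : ℕ))) * ((x n).im : ℂ) * ((y ω).im : ℂ)) * Complex.I_sq
  have hre : ∀ z : ℂ, ‖z‖ ≤ 1 → |z.re| ≤ 1 := fun z hz => (Complex.abs_re_le_norm z).trans hz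
  have him : ∀ z : ℂ, ‖z‖ ≤ 1 → |z.im| ≤ 1 := fun z hz => (Complex.abs_im_le_norm z).trans hz
  rw [h1]
  refine (norm_add_le _ _).trans ?_
  have e1 := key _ _ (fun n => hre _ (hx n)) (fun n => hre _ (hy n))
  have e2 := key _ _ (fun n => hre _ (hx n)) (fun n => him _ (hy n))
  have e3 := key _ _ (fun n => him _ (hx n)) (fun n => hre _ (hy n))
  have e4 := key _ _ (fun n => him _ (hx n)) (fun n => him _ (hy n))
  have e5 := norm_add_le (∑ n : Fin N, ∑ ω, toC (Φ ω (dl n)) * ((x n).re : ℂ) * ((y ω).re : ℂ))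
    (Complex.I * (∑ n : Fin N, ∑ ω, toC (Φ ω (dl n)) * ((x n).re : ℂ) * ((y ω).im : ℂ)))
  have e6 := norm_sub_le (Complex.I * (∑ n : Fin N, ∑ ω, toC (Φ ω (dl n)) *
    ((x n).im : ℂ) * ((y ω).re : ℂ)))
    (∑ n : Fin N, ∑ ω, toC (Φ ω (dl n)) * ((x n).im : ℂ) * ((y ω).im : ℂ))
  rw [norm_mul, Complex.norm_I, one_mul] at e5 e6
  linarith

theorem groth_c0 {κ ι : Type} [Fintype κ] [Fintype ι] (Φ : κ → (C₀(ℕ, 𝕜) →L[𝕜] 𝕜)) (a : ℝ)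
    (hΦ : ∀ x, ∑ ω, ‖Φ ω x‖ ≤ a * ‖x‖) (ha : 0 ≤ a) (b : ι → C₀(ℕ, 𝕜)) (s : κ → ι → 𝕜)
    (γ : ι → ℝ) {β σ : ℝ} (hβ : 0 < β) (hσ : 0 < σ)
    (hb : ∀ n : ℕ, ∑ j, γ j ^ 2 * ‖b j n‖ ^ 2 ≤ β ^ 2)
    (hs : ∀ ω, ∑ j, γ j ^ 2 * ‖s ω j‖ ^ 2 ≤ σ ^ 2) :
    ‖∑ j, ((γ j ^ 2 : ℝ) : 𝕜) * ∑ ω, s ω j * Φ ω (b j)‖ ≤ 384 * a * (β * σ) := by
  have htend : Tendsto (fun N : ℕ => ∑ j, ((γ j ^ 2 : ℝ) : 𝕜) *
      ∑ ω, s ω j * Φ ω (∑ l ∈ range N, b j l • (dl l : C₀(ℕ, 𝕜)))) atTop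
      (𝓝 (∑ j, ((γ j ^ 2 : ℝ) : 𝕜) * ∑ ω, s ω j * Φ ω (b j))) := by
    apply tendsto_finsetSum
    intro j _
    apply Tendsto.const_mul
    apply tendsto_finsetSum
    intro ω _
    apply Tendsto.const_mul
    exact ((Φ ω).continuous.tendsto (b j)).comp (trunc_tendsto (b j))
  refine le_of_tendsto htend.norm (Eventually.of_forall fun N => ?_)
  have h1 : toC (∑ j, ((γ j ^ 2 : ℝ) : 𝕜) *
      ∑ ω, s ω j * Φ ω (∑ l ∈ range N, b j l • (dl l : C₀(ℕ, 𝕜)))) =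
      Pool.Agent.H758R2.Groth.form (fun (n : Fin N) (ω : κ) => toC (Φ ω (dl n)))
        (fun (n : Fin N) (j : ι) => (γ j : ℂ) * toC (b j n))
        (fun (ω : κ) (j : ι) => (γ j : ℂ) * toC (s ω j)) := by
    unfold Pool.Agent.H758R2.Groth.form
    rw [toC_finsum]
    simp_rw [toC_mul, toC_finsum, toC_mul, map_sum, map_smul, toC_finsum, toC_ofReal, mul_sum]
    -- LHS : ∑ j, ∑ ω, ∑ l ∈ range N
    simp_rw [Finset.sum_range]
    rw [sum_comm]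
    rw [sum_comm' (s := (univ : Finset (Fin N))) (t := fun _ => (univ : Finset κ))
      (s' := fun _ => (univ : Finset (Fin N))) (t' := (univ : Finset κ)) (by simp)]
    refine sum_congr rfl fun ω _ => ?_
    rw [sum_comm]
    refine sum_congr rfl fun n _ => sum_congr rfl fun j _ => ?_
    rw [smul_eq_mul, toC_mul]
    push_cast
    ring
  have h2 := Pool.Agent.H758R2.Groth.form_le (fun (n : Fin N) (ω : κ) => toC (Φ ω (dl n)))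
    (fun (n : Fin N) (j : ι) => (γ j : ℂ) * toC (b j n))
    (fun (ω : κ) (j : ι) => (γ j : ℂ) * toC (s ω j)) hβ hσ (by
      intro n
      refine le_trans (le_of_eq (sum_congr rfl fun j _ => ?_)) (hb n)
      rw [norm_mul, toC_norm, mul_pow, Complex.norm_real, Real.norm_eq_abs, sq_abs]) (by
      intro ω
      refine le_trans (le_of_eq (sum_congr rfl fun j _ => ?_)) (hs ω)
      rw [norm_mul, toC_norm, mul_pow, Complex.norm_real, Real.norm_eq_abs, sq_abs])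
  have h3 := Pool.Agent.H758R2.Groth.groth _ (bbound Φ a hΦ ha N)
  rw [← toC_norm, h1]
  refine h2.trans ?_
  calc _ ≤ (96 * (4 * a)) * (β * σ) := mul_le_mul_of_nonneg_right h3 (by positivity)
    _ = _ := by ring

end Pool.Agent.R247.SX
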