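import Pool.Agent.R247.SX.Weak

/-!
Operators on Schreier spaces that are bounded for the `ℓ_2`-norm are strictly singular.
-/

open Finset

set_option maxHeartbeats 400000

namespace Pool.Agent.R247.SX

variable {𝕜 : Type} [RCLike 𝕜]

/-- Strictly singular operators: no restriction to an infinite-dimensional closed subspace is
bounded below (is an isomorphism onto its image). -/
def StrictlySingular {n : ℕ} (T : X 𝕜 n →L[𝕜] X 𝕜 n) : Prop :=
  ∀ Y : Submodule 𝕜 (X 𝕜 n), IsClosed (Y : Set (X 𝕜 n)) → ¬ FiniteDimensional 𝕜 Y →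
    ¬ ∃ c : ℝ, 0 < c ∧ ∀ y ∈ Y, c * ‖y‖ ≤ ‖T y‖

/-- coordinate functionals -/
noncomputable def cf (n : ℕ) (j : ℕ+) : X 𝕜 n →L[𝕜] 𝕜 :=
  (Finsupp.lapply j : (ℕ+ →₀ 𝕜) →ₗ[𝕜] 𝕜).extendOfNorm (inc 𝕜 n)

theorem cf_inc (n : ℕ) (j : ℕ+) (x : ℕ+ →₀ 𝕜) : cf n j (inc 𝕜 n x) = x j :=
  LinearMap.extendOfNorm_eq (f := (Finsupp.lapply j : (ℕ+ →₀ 𝕜) →ₗ[𝕜] 𝕜)) (inc_dense n)
      ⟨1, fun x => by rw [inc_norm, one_mul]; exact coord_le_nrm n x j⟩ x

theorem P_norm_le (n : ℕ) (N : Set ℕ+) (x : X 𝕜 n) : ‖P n N x‖ ≤ ‖x‖ := by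
  refine (inc_dense n).induction_on x (isClosed_le (P n N).continuous.norm continuous_norm)
    fun x => ?_
  rw [P_inc, inc_norm, inc_norm]
  simpa using restr_le n N x

theorem split (n : ℕ) (p : ℕ+) :
    P n {j | p < j} + ∑ j ∈ Finset.Icc 1 p, (cf n j).smulRight (inc 𝕜 n (Finsupp.single j 1)) =
      ContinuousLinearMap.id 𝕜 (X 𝕜 n) := by
  classical
  apply ext_unique
  intro x
  rw [_root_.add_apply, P_inc, _root_.sum_apply]
  simp_rw [ContinuousLinearMap.smulRight_apply, cf_inc, ← map_smul, ← map_sum, ← map_add]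
  show inc 𝕜 n _ = inc 𝕜 n x
  congr 1
  apply Finsupp.ext
  intro l
  rw [Finsupp.add_apply, restr_apply, Finsupp.finsetSum_apply]
  simp_rw [Finsupp.smul_apply, Finsupp.single_apply, smul_eq_mul, mul_ite, mul_one, mul_zero]
  rw [Finset.sum_ite_eq' (Finset.Icc 1 p) l (fun j => x j)]
  by_cases h : p < l
  · simp [h]
  · have : l ≤ p := not_lt.mp h
    simp [this]

theorem exists_near {n : ℕ} (Y : Submodule 𝕜 (X 𝕜 n)) (hY : ¬ FiniteDimensional 𝕜 Y) (p : ℕ+)
    {ε : ℝ} (hε : 0 < ε) : ∃ y ∈ Y, ∃ x : ℕ+ →₀ 𝕜, ‖y‖ = 1 ∧ (∀ j ∈ x.support, p < j) ∧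
      ‖y - inc 𝕜 n x‖ ≤ ε := by
  classical
  -- a nonzero vector of Y with vanishing first coordinates
  let g : Y →ₗ[𝕜] (Finset.Icc 1 p → 𝕜) :=
    LinearMap.pi fun j => ((cf n (j : ℕ+) : X 𝕜 n →L[𝕜] 𝕜) : X 𝕜 n →ₗ[𝕜] 𝕜).comp Y.subtype
  have hg : ¬ Function.Injective g := fun h => hY (FiniteDimensional.of_injective g h)
  rw [← LinearMap.ker_eq_bot, Submodule.eq_bot_iff] at hg
  push Not at hg
  obtain ⟨y0, hy0, hne⟩ := hg
  have hy0' : ∀ j ∈ Finset.Icc 1 p, cf n j (y0 : X 𝕜 n) = 0 := fun j hj => by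
    have := congrFun (LinearMap.mem_ker.mp hy0) ⟨j, hj⟩
    exact this
  have hn0 : ‖(y0 : X 𝕜 n)‖ ≠ 0 := by
    rw [norm_ne_zero_iff]
    intro h
    exact hne (Subtype.ext h)
  set y : X 𝕜 n := ((‖(y0 : X 𝕜 n)‖⁻¹ : ℝ) : 𝕜) • (y0 : X 𝕜 n) with hy
  have hy1 : ‖y‖ = 1 := by
    rw [hy, norm_smul, RCLike.norm_ofReal, abs_of_nonneg (by positivity), inv_mul_cancel₀ hn0]
  have hyj : ∀ j ∈ Finset.Icc 1 p, cf n j y = 0 := fun j hj => by
    rw [hy, map_smul, hy0' j hj, smul_zero]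
  have hPy : P n {j | p < j} y = y := by
    have h1 := congrArg (fun T : X 𝕜 n →L[𝕜] X 𝕜 n => T y) (split (𝕜 := 𝕜) n p)
    simp only [_root_.add_apply, _root_.sum_apply, ContinuousLinearMap.smulRight_apply] at h1
    rw [sum_eq_zero (fun j hj => by rw [hyj j hj, zero_smul]), add_zero] at h1
    exact h1
  obtain ⟨x0, hx0⟩ : ∃ x0 : ℕ+ →₀ 𝕜, ‖y - inc 𝕜 n x0‖ < ε := by
    have := (inc_dense (𝕜 := 𝕜) n) y
    rw [Metric.mem_closure_iff] at this
    obtain ⟨_, ⟨x0, rfl⟩, h⟩ := this ε hε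
    exact ⟨x0, by rwa [dist_eq_norm] at h⟩
  refine ⟨y, Y.smul_mem _ y0.2, restr {j | p < j} x0, hy1, fun j hj => ?_, ?_⟩
  · rw [Finsupp.mem_support_iff, restr_apply] at hj
    by_contra h
    exact hj (if_neg h)
  · have h1 : y - inc 𝕜 n (restr {j | p < j} x0) = P n {j | p < j} (y - inc 𝕜 n x0) := by
      rw [map_sub, hPy, P_inc]
    rw [h1]
    exact (P_norm_le n _ _).trans hx0.le

theorem strictlySingular_of_l2 {n : ℕ} (hn : 1 ≤ n) (T : X 𝕜 n →L[𝕜] X 𝕜 n) (C : ℝ) (hC : 0 < C)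
    (hT : ∀ x, ‖T (inc 𝕜 n x)‖ ^ 2 ≤ C ^ 2 * sq2 x) : StrictlySingular T := by
  classical
  rintro Y - hY ⟨c, hc, hcT⟩
  set η : ℝ := c ^ 2 / (144 * C ^ 2) with hη
  have hη0 : 0 < η := by positivity
  -- choice of ε
  obtain ⟨ε, hε0, hε1, hε2, hε3⟩ : ∃ ε : ℝ, 0 < ε ∧ ε ≤ 1 ∧ ‖T‖ * ε ≤ c / 2 ∧
      (‖T‖ + c) * ε ≤ c * η / 2 := by
    have hT0 := norm_nonneg T
    refine ⟨min 1 (min (c / 2 / (‖T‖ + c)) (c * η / 2 / (‖T‖ + c))), by positivity,
      min_le_left _ _, ?_, ?_⟩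
    · calc ‖T‖ * _ ≤ (‖T‖ + c) * (c / 2 / (‖T‖ + c)) := by
            apply mul_le_mul (by linarith) ((min_le_right _ _).trans (min_le_left _ _))
              (by positivity) (by positivity)
        _ = c / 2 := by field_simp
    · calc (‖T‖ + c) * _ ≤ (‖T‖ + c) * (c * η / 2 / (‖T‖ + c)) := by
            apply mul_le_mul_of_nonneg_left ((min_le_right _ _).trans (min_le_right _ _))
              (by positivity)
        _ = c * η / 2 := by field_simp
  obtain ⟨m, hm⟩ := exists_nat_gt ((12 * C / (c * η)) ^ 2)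
  have hm0 : 0 < m := by
    have : (0 : ℝ) < m := lt_of_le_of_lt (by positivity) hm
    exact_mod_cast this
  choose y hyY x hy1 hxs hyx using fun p : ℕ+ => exists_near Y hY p hε0
  -- the sequence
  let nx : ℕ+ → ℕ+ := fun q => q + (x q).support.sup id
  let Q : ℕ → ℕ+ := fun l => nx^[l] ⟨m, hm0⟩
  have hQs : ∀ l, Q (l + 1) = Q l + (x (Q l)).support.sup id := fun l => by
    show nx^[l + 1] _ = _
    rw [Function.iterate_succ_apply']
  have hQm : StrictMono Q := strictMono_nat_of_lt_succ fun l => by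
    rw [hQs]
    exact PNat.lt_add_right _ _
  have hQ0 : Q 0 = ⟨m, hm0⟩ := rfl
  have hsup : ∀ l, ∀ a ∈ (x (Q l)).support, a < Q (l + 1) := fun l a ha => by
    rw [hQs]
    have : a ≤ (x (Q l)).support.sup id := Finset.le_sup (f := id) ha
    exact lt_of_le_of_lt this (PNat.lt_add_left _ _)
  have hord : ∀ l l', l < l' → ∀ a ∈ (x (Q l)).support, ∀ b ∈ (x (Q l')).support, a < b := by
    intro l l' hl a ha b hb
    exact (hsup l a ha).trans_le ((hQm.monotone hl).trans (hxs (Q l') b hb).le)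
  have hdisj : ∀ l l', l ≠ l' → ∀ a ∈ (x (Q l)).support, x (Q l') a = 0 := by
    intro l l' hne a ha
    by_contra h
    have hb := Finsupp.mem_support_iff.mpr h
    rcases lt_or_gt_of_ne hne with h' | h'
    · exact lt_irrefl a (hord _ _ h' a ha a hb)
    · exact lt_irrefl a (hord _ _ h' a hb a ha)
  -- norms of the approximating vectors
  have hTx : ∀ z, ‖T (inc 𝕜 n z)‖ ≤ C * Real.sqrt (sq2 z) := by
    intro z
    apply le_of_sq_le_sq _ (by positivity)
    rw [mul_pow, Real.sq_sqrt (sq2_nonneg z)]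
    exact hT z
  have hnx : ∀ q, nrm n (x q) ≤ 2 := by
    intro q
    rw [← inc_norm]
    have h1 : ‖inc 𝕜 n (x q)‖ ≤ ‖y q‖ + ‖y q - inc 𝕜 n (x q)‖ := by
      have := norm_sub_norm_le (inc 𝕜 n (x q)) (y q)
      rw [norm_sub_rev] at this
      linarith
    rw [hy1] at h1
    linarith [hyx q]
  -- a large coordinate
  have hcoord : ∀ q, ∃ j ∈ (x q).support, η < ‖x q j‖ := by
    intro q
    by_contra hcon
    push Not at hcon
    have h1 : sq2 (x q) ≤ 9 * η * 2 := by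
      refine sq2_le hn (x q) (hnx q) two_pos hη0 fun j => ?_
      by_cases hj : j ∈ (x q).support
      · exact hcon j hj
      · rw [Finsupp.notMem_support_iff.mp hj, norm_zero]; exact hη0.le
    have h2 : c ≤ ‖T (y q)‖ := by
      have := hcT (y q) (hyY q)
      rwa [hy1, mul_one] at this
    have h3 : ‖T (y q)‖ ≤ ‖T (inc 𝕜 n (x q))‖ + ‖T‖ * ε := by
      have e1 : T (y q) = T (inc 𝕜 n (x q)) + T (y q - inc 𝕜 n (x q)) := by
        rw [map_sub]; abel
      rw [e1]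
      refine (norm_add_le _ _).trans (add_le_add le_rfl ((T.le_opNorm _).trans ?_))
      exact mul_le_mul_of_nonneg_left (hyx q) (norm_nonneg _)
    have h4 : c / 2 ≤ C * Real.sqrt (sq2 (x q)) := by linarith [hTx (x q)]
    have h5 : (c / 2) ^ 2 ≤ C ^ 2 * sq2 (x q) := by
      have := pow_le_pow_left₀ (by positivity) h4 2
      rwa [mul_pow, Real.sq_sqrt (sq2_nonneg _)] at this
    have h6 : C ^ 2 * sq2 (x q) ≤ C ^ 2 * (9 * η * 2) :=
      mul_le_mul_of_nonneg_left h1 (by positivity)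
    have h7 : C ^ 2 * (9 * η * 2) = c ^ 2 / 8 := by
      rw [hη]; field_simp; norm_num
    nlinarith [sq_pos_of_pos hc]
  choose J' hJs hJη using hcoord
  set z : X 𝕜 n := ∑ i ∈ range m, y (Q i) with hz
  set X' : ℕ+ →₀ 𝕜 := ∑ i ∈ range m, x (Q i) with hX'
  have hzY : z ∈ Y := Y.sum_mem fun i _ => hyY _
  have hzx : ‖z - inc 𝕜 n X'‖ ≤ m * ε := by
    rw [hz, hX', map_sum, ← sum_sub_distrib]
    refine (norm_sum_le _ _).trans ((sum_le_sum fun i _ => hyx (Q i)).trans ?_)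
    rw [sum_const, card_range, nsmul_eq_mul]
  have hX'a : ∀ j, X' j = ∑ i ∈ range m, x (Q i) j := fun j => by
    rw [hX', Finsupp.finsetSum_apply]
  have hsq : ∀ j, ‖X' j‖ ^ 2 ≤ ∑ i ∈ range m, ‖x (Q i) j‖ ^ 2 := by
    intro j
    rw [hX'a]
    by_cases h : ∃ i ∈ range m, j ∈ (x (Q i)).support
    · obtain ⟨i, hi, hj⟩ := h
      rw [sum_eq_single_of_mem i hi (fun i' _ hne => hdisj i i' (Ne.symm hne) j hj)]
      exact Finset.single_le_sum (f := fun i => ‖x (Q i) j‖ ^ 2) (fun i _ => by positivity) hi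
    · push Not at h
      rw [sum_eq_zero (fun i hi => Finsupp.notMem_support_iff.mp (h i hi)), norm_zero]
      have : 0 ≤ ∑ i ∈ range m, ‖x (Q i) j‖ ^ 2 := sum_nonneg fun i _ => by positivity
      simpa using this
  have hsq2 : sq2 X' ≤ m * 36 := by
    unfold sq2
    calc ∑ j ∈ X'.support, ‖X' j‖ ^ 2 ≤ ∑ j ∈ X'.support, ∑ i ∈ range m, ‖x (Q i) j‖ ^ 2 :=
          sum_le_sum fun j _ => hsq j
      _ = ∑ i ∈ range m, ∑ j ∈ X'.support, ‖x (Q i) j‖ ^ 2 := sum_comm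
      _ ≤ ∑ i ∈ range m, (36 : ℝ) := by
          apply sum_le_sum
          intro i _
          refine (sum_sq_le _ _).trans ((sq2_le_nrm hn _).trans ?_)
          have h1 := hnx (Q i)
          have h2 := nrm_nonneg n (x (Q i))
          nlinarith
      _ = m * 36 := by rw [sum_const, card_range, nsmul_eq_mul]
  -- lower bound
  have hinj : ∀ i i', J' (Q i) = J' (Q i') → i = i' := by
    intro i i' h
    by_contra hne
    have h1 := hdisj i i' hne _ (hJs (Q i))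
    rw [h] at h1
    exact (Finsupp.mem_support_iff.mp (hJs (Q i'))) h1
  have hlow : m * η ≤ nrm n X' := by
    set E := (range m).image (fun i => J' (Q i)) with hE
    have hEc : E.card = m := by
      rw [hE, card_image_of_injective _ (fun i i' h => hinj i i' h), card_range]
    have hES : E ∈ Sch 1 := mem_sch_one fun a ha => by
      rw [hEc]
      rw [hE, mem_image] at ha
      obtain ⟨i, -, rfl⟩ := ha
      have h1 := hxs (Q i) _ (hJs (Q i))
      have h2 : Q 0 ≤ Q i := hQm.monotone (Nat.zero_le i)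
      have h3 : ((⟨m, hm0⟩ : ℕ+) : ℕ) ≤ (J' (Q i) : ℕ) := (h2.trans h1.le : Q 0 ≤ J' (Q i))
      exact h3
    refine le_trans ?_ (le_nrm X' (sch_one_subset hn hES))
    rw [hE, sum_image (fun i _ i' _ h => hinj i i' h)]
    calc (m : ℝ) * η = ∑ i ∈ range m, η := by rw [sum_const, card_range, nsmul_eq_mul]
      _ ≤ _ := by
        apply sum_le_sum
        intro i hi
        rw [hX'a, sum_eq_single_of_mem i hi
          (fun i' _ hne => hdisj i i' (Ne.symm hne) _ (hJs (Q i)))]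
        exact (hJη _).le
  -- conclusion
  have h1 : m * η - m * ε ≤ ‖z‖ := by
    have := norm_sub_norm_le (inc 𝕜 n X') z
    rw [norm_sub_rev, inc_norm] at this
    linarith
  have h2 : ‖T z‖ ≤ C * Real.sqrt (sq2 X') + ‖T‖ * (m * ε) := by
    have e1 : T z = T (inc 𝕜 n X') + T (z - inc 𝕜 n X') := by rw [map_sub]; abel
    rw [e1]
    refine (norm_add_le _ _).trans (add_le_add (hTx _) ((T.le_opNorm _).trans ?_))
    exact mul_le_mul_of_nonneg_left hzx (norm_nonneg _)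
  have h3 := hcT z hzY
  have hmr : (0 : ℝ) < m := by exact_mod_cast hm0
  have h4 : Real.sqrt (sq2 X') ≤ 6 * Real.sqrt m := by
    rw [show (6 : ℝ) * Real.sqrt m = Real.sqrt (m * 36) by
      rw [Real.sqrt_mul hmr.le, show (36 : ℝ) = 6 ^ 2 by norm_num, Real.sqrt_sq (by norm_num)]
      ring]
    exact Real.sqrt_le_sqrt hsq2
  set s := Real.sqrt (m : ℝ) with hs
  have hs2 : s ^ 2 = m := Real.sq_sqrt hmr.le
  have hs0 : 0 < s := Real.sqrt_pos.mpr hmr
  have h5 : c * (m * η) - (‖T‖ + c) * ε * m ≤ C * (6 * s) := by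
    have e1 : c * (m * η - m * ε) ≤ c * ‖z‖ := mul_le_mul_of_nonneg_left h1 hc.le
    have e2 : C * Real.sqrt (sq2 X') ≤ C * (6 * s) := mul_le_mul_of_nonneg_left h4 hC.le
    nlinarith
  have h6 : (‖T‖ + c) * ε * m ≤ c * η / 2 * m := mul_le_mul_of_nonneg_right hε3 hmr.le
  have h7 : c * η / 2 * s * s ≤ 6 * C * s := by
    have : c * η / 2 * s * s = c * η / 2 * m := by rw [← hs2]; ring
    rw [this]
    nlinarith
  have h8 : c * η / 2 * s ≤ 6 * C := le_of_mul_le_mul_right h7 hs0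
  have h9 : s ≤ 12 * C / (c * η) := by
    rw [le_div_iff₀ (by positivity)]
    linarith
  have h10 : s ^ 2 ≤ (12 * C / (c * η)) ^ 2 := pow_le_pow_left₀ hs0.le h9 2
  rw [hs2] at h10
  linarith

end Pool.Agent.R247.SX
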