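import Pool.Agent.R247.SX.Main
import Pool.Agent.R247.SX.SS
import Pool.Agent.R247.SX.GC

/-!
A strictly singular operator on a Schreier space, bounded for the `ℓ_2`-norm, which is not a limit
of operators that factor through `c_0`.
-/

open Finset Filter Topology
open scoped ZeroAtInfty
open Pool.Agent.H758R2.Groth (sgn sg second_moment)

set_option maxHeartbeats 400000

namespace Pool.Agent.R247.SX

variable {𝕜 : Type} [RCLike 𝕜]

theorem exists_groups {n : ℕ} {w : Idx → (ℕ+ →₀ ℝ)} (hw : Sys n Set.univ w) :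
    ∃ (I : ℕ → Finset ℕ+) (c : ℕ → ℕ+ → ℝ), (∀ k k', k ≠ k' → Disjoint (I k) (I k')) ∧
      (∀ k j, 0 ≤ c k j) ∧ (∀ k, ∀ E ∈ Sch n, ∑ j ∈ E, c k j ≤ 1) ∧
      (∀ k, ∑ j ∈ I k, c k j = 2 ^ k / 3) := by
  classical
  refine ⟨fun k => (Finset.Ico (2 ^ k) (2 ^ (k + 1))).biUnion fun m => (w ⟨m, 0⟩).support,
    fun k j => (1 / 3) * ∑ m ∈ Finset.Ico (2 ^ k) (2 ^ (k + 1)), w ⟨m, 0⟩ j, ?_, ?_, ?_, ?_⟩
  · have key : ∀ k k', k < k' →
        Disjoint ((Finset.Ico (2 ^ k) (2 ^ (k + 1))).biUnion fun m => (w ⟨m, 0⟩).support)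
        ((Finset.Ico (2 ^ k') (2 ^ (k' + 1))).biUnion fun m => (w ⟨m, 0⟩).support) := by
      intro k k' h
      rw [Finset.disjoint_left]
      intro a ha hb
      rw [mem_biUnion] at ha hb
      obtain ⟨m, hm, ham⟩ := ha
      obtain ⟨m', hm', ham'⟩ := hb
      rw [mem_Ico] at hm hm'
      have h1 : 2 ^ (k + 1) ≤ 2 ^ k' := Nat.pow_le_pow_right (by norm_num) h
      have hne : m ≠ m' := by omega
      exact Finset.disjoint_left.mp (hw.disj ⟨m, 0⟩ ⟨m', 0⟩ (by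
        intro h; exact hne (congrArg Sigma.fst h))) ham ham'
    intro k k' hne
    rcases lt_or_gt_of_ne hne with h | h
    · exact key k k' h
    · exact (key k' k h).symm
  · intro k j
    have : 0 ≤ ∑ m ∈ Finset.Ico (2 ^ k) (2 ^ (k + 1)), w ⟨m, 0⟩ j :=
      sum_nonneg fun m _ => (hw.av _).nonneg j
    positivity
  · intro k E hE
    -- use the norm bound for a sum of members of different blocks
    set z : Idx →₀ ℝ := ∑ m ∈ Finset.Ico (2 ^ k) (2 ^ (k + 1)), Finsupp.single (fst m) 1 with hz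
    have hz1 : ∀ I : Idx, z I = ∑ m ∈ Finset.Ico (2 ^ k) (2 ^ (k + 1)),
        (if fst m = I then 1 else 0) := by
      intro I
      rw [hz, Finsupp.finsetSum_apply]
      exact sum_congr rfl fun m _ => by rw [Finsupp.single_apply]
    have hz2 : ∀ m, ∑ i : Fin (m + 1), ‖z ⟨m, i⟩‖ ≤ 1 := by
      intro m
      rw [sum_eq_single_of_mem (0 : Fin (m + 1)) (mem_univ _)]
      · rw [hz1]
        have h1 : ∀ m' ∈ Finset.Ico (2 ^ k) (2 ^ (k + 1)),
            (if fst m' = (⟨m, 0⟩ : Idx) then (1 : ℝ) else 0) = if m' = m then 1 else 0 := by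
          intro m' _
          congr 1
          exact propext ⟨fun h => congrArg Sigma.fst h, fun h => by subst h; rfl⟩
        rw [sum_congr rfl h1, sum_ite_eq']
        split_ifs <;> simp
      · intro i _ hi
        rw [hz1, sum_eq_zero, norm_zero]
        intro m' _
        rw [if_neg]
        intro h
        apply hi
        unfold fst at h
        rw [Sigma.mk.injEq] at h
        obtain ⟨rfl, h⟩ := h
        exact (eq_of_heq h).symm
    have h1 := (le_nrm (J w z) hE).trans (J_le hw z 1 zero_le_one hz2)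
    have h2 : ∀ j, J w z j = ∑ m ∈ Finset.Ico (2 ^ k) (2 ^ (k + 1)), w ⟨m, 0⟩ j := by
      intro j
      rw [hz, map_sum, Finsupp.finsetSum_apply]
      apply sum_congr rfl
      intro m _
      unfold J
      rw [Finsupp.linearCombination_single, one_smul]
      rfl
    simp_rw [h2] at h1
    rw [← mul_sum]
    have h3 : ∑ j ∈ E, ∑ m ∈ Finset.Ico (2 ^ k) (2 ^ (k + 1)), w ⟨m, 0⟩ j ≤
        ∑ j ∈ E, ‖∑ m ∈ Finset.Ico (2 ^ k) (2 ^ (k + 1)), w ⟨m, 0⟩ j‖ :=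
      sum_le_sum fun j _ => Real.le_norm_self _
    linarith
  · intro k
    rw [← mul_sum, sum_comm]
    have h1 : ∀ m ∈ Finset.Ico (2 ^ k) (2 ^ (k + 1)),
        ∑ j ∈ (Finset.Ico (2 ^ k) (2 ^ (k + 1))).biUnion (fun m => (w ⟨m, 0⟩).support),
          w ⟨m, 0⟩ j = 1 := by
      intro m hm
      apply mass_eq_one (hw.av _)
      intro j hj
      exact mem_biUnion.mpr ⟨m, hm, hj⟩
    rw [sum_congr rfl h1, sum_const, Nat.card_Ico, nsmul_eq_mul, mul_one, pow_succ]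
    have : 2 ^ k * 2 - 2 ^ k = 2 ^ k := by omega
    rw [this]
    push_cast
    ring

/-- data for the operator: disjoint groups of coordinates, and embeddings of their power sets in
blocks of the index set -/
structure Dat where
  I : ℕ → Finset ℕ+
  disj : ∀ k k', k ≠ k' → Disjoint (I k) (I k')
  M : ℕ → ℕ
  inj : Function.Injective M
  e : ∀ k, {S // S ∈ (I k).powerset} ↪ Fin (M k + 1)

theorem exists_dat (I : ℕ → Finset ℕ+) (hI : ∀ k k', k ≠ k' → Disjoint (I k) (I k')) :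
    ∃ d : Dat, d.I = I := by
  classical
  let M : ℕ → ℕ := fun k => ∑ i ∈ range (k + 1), 2 ^ (I i).card
  have hM : StrictMono M := strictMono_nat_of_lt_succ fun k => by
    show ∑ i ∈ range (k + 1), 2 ^ (I i).card < ∑ i ∈ range (k + 1 + 1), 2 ^ (I i).card
    rw [sum_range_succ _ (k + 1)]
    have : 0 < 2 ^ (I (k + 1)).card := by positivity
    omega
  have hMc : ∀ k, Fintype.card {S // S ∈ (I k).powerset} ≤ Fintype.card (Fin (M k + 1)) := by
    intro k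
    rw [Fintype.card_coe, card_powerset, Fintype.card_fin]
    have : 2 ^ (I k).card ≤ M k := by
      show _ ≤ ∑ i ∈ range (k + 1), 2 ^ (I i).card
      exact Finset.single_le_sum (f := fun i => 2 ^ (I i).card) (fun i _ => Nat.zero_le _)
        (mem_range.mpr (Nat.lt_succ_self k))
    omega
  exact ⟨⟨I, hI, M, hM.injective,
    fun k => (Function.Embedding.nonempty_of_card_le (hMc k)).some⟩, rfl⟩

namespace Dat

variable (d : Dat)

/-- the target index of a sign pattern -/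
def ix (k : ℕ) (S : {S // S ∈ (d.I k).powerset}) : Idx := ⟨d.M k, d.e k S⟩

theorem ix_inj {k k' : ℕ} {S : {S // S ∈ (d.I k).powerset}} {S' : {S // S ∈ (d.I k').powerset}}
    (h : d.ix k S = d.ix k' S') : ∃ h : k = k', h ▸ S = S' := by
  have h1 : k = k' := d.inj (congrArg Sigma.fst h)
  subst h1
  refine ⟨rfl, ?_⟩
  unfold ix at h
  rw [Sigma.mk.injEq] at h
  exact (d.e k).injective (eq_of_heq h.2)

/-- sign -/
noncomputable def sn (𝕜 : Type) [RCLike 𝕜] (S : Finset ℕ+) (j : ℕ+) : 𝕜 := by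
  classical exact if j ∈ S then 1 else -1

theorem norm_sn (S : Finset ℕ+) (j : ℕ+) : ‖sn 𝕜 S j‖ = 1 := by
  unfold sn; split_ifs <;> simp

theorem sn_mul_self (S : Finset ℕ+) (j : ℕ+) : sn 𝕜 S j * sn 𝕜 S j = 1 := by
  unfold sn; split_ifs <;> simp

open Classical in
/-- image of a basis vector -/
noncomputable def dv (j : ℕ+) : Idx →₀ 𝕜 :=
  if h : ∃ k, j ∈ d.I k then
    ∑ S : {S // S ∈ (d.I h.choose).powerset},
      Finsupp.single (d.ix h.choose S) (sn 𝕜 S.1 j / 2 ^ (d.I h.choose).card)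
  else 0

theorem dv_of_mem {k : ℕ} {j : ℕ+} (hj : j ∈ d.I k) : (d.dv j : Idx →₀ 𝕜) =
    ∑ S : {S // S ∈ (d.I k).powerset}, Finsupp.single (d.ix k S) (sn 𝕜 S.1 j / 2 ^ (d.I k).card) := by
  classical
  have h : ∃ k, j ∈ d.I k := ⟨k, hj⟩
  unfold dv
  rw [dif_pos h]
  have hc : h.choose = k := by
    by_contra hne
    exact Finset.disjoint_left.mp (d.disj _ _ hne) h.choose_spec hj
  rw [hc]

theorem dv_apply_ix (k : ℕ) (S : {S // S ∈ (d.I k).powerset}) (j : ℕ+) :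
    (d.dv j : Idx →₀ 𝕜) (d.ix k S) =
      (open Classical in if j ∈ d.I k then sn 𝕜 S.1 j / 2 ^ (d.I k).card else 0) := by
  classical
  by_cases h : ∃ k', j ∈ d.I k'
  · obtain ⟨k', hk'⟩ := h
    rw [d.dv_of_mem hk', Finsupp.finsetSum_apply]
    by_cases hk : k = k'
    · subst hk
      rw [if_pos hk', sum_eq_single_of_mem S (mem_univ _), Finsupp.single_eq_same]
      intro S' _ hne
      rw [Finsupp.single_apply, if_neg]
      intro h
      obtain ⟨_, h2⟩ := d.ix_inj h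
      exact hne h2
    · rw [if_neg (fun h => Finset.disjoint_left.mp (d.disj _ _ hk) h hk'), sum_eq_zero]
      intro S' _
      rw [Finsupp.single_apply, if_neg]
      intro h
      obtain ⟨h1, _⟩ := d.ix_inj h
      exact hk h1.symm
  · unfold dv
    rw [dif_neg h, Finsupp.zero_apply, if_neg (fun h' => h ⟨k, h'⟩)]

theorem dv_apply_other (J : Idx) (hJ : ∀ k S, d.ix k S ≠ J) (j : ℕ+) :
    (d.dv j : Idx →₀ 𝕜) J = 0 := by
  classical
  by_cases h : ∃ k', j ∈ d.I k'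
  · obtain ⟨k', hk'⟩ := h
    rw [d.dv_of_mem hk', Finsupp.finsetSum_apply, sum_eq_zero]
    intro S' _
    rw [Finsupp.single_apply, if_neg (hJ _ _)]
  · unfold dv
    rw [dif_neg h, Finsupp.zero_apply]

/-- the linear map on `c_00` -/
noncomputable def D : (ℕ+ →₀ 𝕜) →ₗ[𝕜] (Idx →₀ 𝕜) := Finsupp.linearCombination 𝕜 d.dv

theorem D_apply (x : ℕ+ →₀ 𝕜) (J : Idx) : d.D x J = ∑ j ∈ x.support, x j * d.dv j J := by
  unfold D
  rw [Finsupp.linearCombination_apply, Finsupp.sum, Finsupp.finsetSum_apply]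
  rfl

theorem D_ix (x : ℕ+ →₀ 𝕜) (k : ℕ) (S : {S // S ∈ (d.I k).powerset}) :
    d.D x (d.ix k S) = (∑ j ∈ d.I k, sn 𝕜 S.1 j * x j) / 2 ^ (d.I k).card := by
  classical
  rw [D_apply]
  simp_rw [dv_apply_ix]
  have h1 : ∑ j ∈ x.support, x j * (if j ∈ d.I k then sn 𝕜 S.1 j / 2 ^ (d.I k).card else 0) =
      ∑ j ∈ x.support ∪ d.I k,
        x j * (if j ∈ d.I k then sn 𝕜 S.1 j / 2 ^ (d.I k).card else 0) := by
    apply sum_subset subset_union_left
    intro j _ hj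
    rw [Finsupp.notMem_support_iff.mp hj, zero_mul]
  have h2 : ∑ j ∈ d.I k, x j * (if j ∈ d.I k then sn 𝕜 S.1 j / 2 ^ (d.I k).card else 0) =
      ∑ j ∈ x.support ∪ d.I k,
        x j * (if j ∈ d.I k then sn 𝕜 S.1 j / 2 ^ (d.I k).card else 0) := by
    apply sum_subset subset_union_right
    intro j _ hj
    rw [if_neg hj, mul_zero]
  rw [h1, ← h2, sum_div]
  apply sum_congr rfl
  intro j hj
  rw [if_pos hj]
  ring

theorem D_other (x : ℕ+ →₀ 𝕜) (J : Idx) (hJ : ∀ k S, d.ix k S ≠ J) : d.D x J = 0 := by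
  rw [D_apply]
  exact sum_eq_zero fun j _ => by rw [d.dv_apply_other J hJ, mul_zero]

/-- second moments -/
theorem sum_sn_sq (s : Finset ℕ+) (x : ℕ+ → 𝕜) :
    ∑ S ∈ s.powerset, ‖∑ j ∈ s, sn 𝕜 S j * x j‖ ^ 2 = 2 ^ s.card * ∑ j ∈ s, ‖x j‖ ^ 2 := by
  classical
  have h := second_moment (fun j => toC (x j)) s
  have h1 : ∀ S, toC (∑ j ∈ s, sn 𝕜 S j * x j) = sg (fun j => toC (x j)) s S := by
    intro S
    unfold sg
    rw [toC_finsum]
    apply sum_congr rfl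
    intro j _
    rw [toC_mul]
    congr 1
    unfold sn sgn
    split_ifs
    · apply Complex.ext <;> simp [toC]
    · apply Complex.ext <;> simp [toC]
  simp_rw [← h1, toC_norm] at h
  exact h

theorem sum_le (x : ℕ+ →₀ 𝕜) (m : ℕ) :
    ∑ i : Fin (m + 1), ‖d.D x ⟨m, i⟩‖ ≤ Real.sqrt (sq2 x) := by
  classical
  by_cases h : ∃ k, d.M k = m
  · obtain ⟨k, rfl⟩ := h
    set P := (d.I k).card with hP
    have h1 : ∑ i : Fin (d.M k + 1), ‖d.D x ⟨d.M k, i⟩‖ =
        ∑ S : {S // S ∈ (d.I k).powerset}, ‖d.D x (d.ix k S)‖ := by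
      symm
      have e1 : ∑ S : {S // S ∈ (d.I k).powerset}, ‖d.D x (d.ix k S)‖ =
          ∑ i ∈ (univ : Finset {S // S ∈ (d.I k).powerset}).map (d.e k),
            ‖d.D x ⟨d.M k, i⟩‖ := by
        rw [sum_map]; rfl
      rw [e1]
      apply sum_subset (subset_univ _)
      intro i _ hi
      rw [d.D_other, norm_zero]
      intro k' S h
      have hk : k' = k := d.inj (congrArg Sigma.fst h)
      subst hk
      unfold ix at h
      rw [Sigma.mk.injEq] at h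
      apply hi
      rw [Finset.mem_map]
      exact ⟨S, mem_univ _, eq_of_heq h.2⟩
    rw [h1]
    simp_rw [D_ix]
    have h2 : ∑ S : {S // S ∈ (d.I k).powerset},
        ‖(∑ j ∈ d.I k, sn 𝕜 S.1 j * x j) / 2 ^ (d.I k).card‖ =
        (∑ S ∈ (d.I k).powerset, ‖∑ j ∈ d.I k, sn 𝕜 S j * x j‖) / 2 ^ P := by
      rw [sum_div, ← Finset.sum_coe_sort (d.I k).powerset
        (fun S => ‖∑ j ∈ d.I k, sn 𝕜 S j * x j‖ / 2 ^ P)]
      apply sum_congr rfl
      intro S _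
      rw [norm_div, norm_pow, RCLike.norm_ofNat]
    rw [h2]
    apply Real.le_sqrt_of_sq_le
    rw [div_pow, div_le_iff₀ (by positivity)]
    have h3 := sq_sum_le_card_mul_sum_sq (s := (d.I k).powerset)
      (f := fun S => ‖∑ j ∈ d.I k, sn 𝕜 S j * x j‖)
    rw [sum_sn_sq, card_powerset] at h3
    push_cast at h3
    have h4 := sum_sq_le x (d.I k)
    refine h3.trans ?_
    have h5 : (0 : ℝ) < 2 ^ P := by positivity
    nlinarith [mul_le_mul_of_nonneg_left h4 (mul_pos h5 h5).le]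
  · rw [sum_eq_zero]
    · exact Real.sqrt_nonneg _
    · intro i _
      rw [d.D_other, norm_zero]
      intro k S h'
      exact h ⟨k, congrArg Sigma.fst h'⟩

theorem JD_le {n : ℕ} {N : Set ℕ+} {w : Idx → (ℕ+ →₀ ℝ)} (hw : Sys n N w) (x : ℕ+ →₀ 𝕜) :
    nrm n ((J w).comp d.D x) ≤ 3 * Real.sqrt (sq2 x) :=
  J_le hw _ _ (Real.sqrt_nonneg _) (d.sum_le x)

theorem JD_le' {n : ℕ} (hn : 1 ≤ n) {N : Set ℕ+} {w : Idx → (ℕ+ →₀ ℝ)} (hw : Sys n N w)
    (x : ℕ+ →₀ 𝕜) : nrm n ((J w).comp d.D x) ≤ 9 * nrm n x := by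
  refine (d.JD_le hw x).trans ?_
  have h1 := Real.sqrt_le_sqrt (sq2_le_nrm hn x)
  rw [Real.sqrt_sq (by have := nrm_nonneg n x; positivity)] at h1
  linarith

/-- the operator -/
noncomputable def T (n : ℕ) (w : Idx → (ℕ+ →₀ ℝ)) : X 𝕜 n →L[𝕜] X 𝕜 n := ext n ((J w).comp d.D)

theorem T_inc {n : ℕ} (hn : 1 ≤ n) {N : Set ℕ+} {w : Idx → (ℕ+ →₀ ℝ)} (hw : Sys n N w)
    (x : ℕ+ →₀ 𝕜) : d.T n w (inc 𝕜 n x) = inc 𝕜 n (J w (d.D x)) :=
  ext_inc (d.JD_le' hn hw) x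

theorem T_ss {n : ℕ} (hn : 1 ≤ n) {N : Set ℕ+} {w : Idx → (ℕ+ →₀ ℝ)} (hw : Sys n N w) :
    StrictlySingular (d.T n w : X 𝕜 n →L[𝕜] X 𝕜 n) := by
  refine strictlySingular_of_l2 hn _ 3 (by norm_num) fun x => ?_
  rw [d.T_inc hn hw, inc_norm]
  have h1 := d.JD_le hw x
  have h2 := nrm_nonneg n (J w (d.D x))
  have h3 : (3 * Real.sqrt (sq2 x)) ^ 2 = 3 ^ 2 * sq2 x := by
    rw [mul_pow, Real.sq_sqrt (sq2_nonneg x)]
  rw [← h3]
  exact pow_le_pow_left₀ h2 h1 2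

end Dat

theorem nrm_single_le (n : ℕ) (j : ℕ+) : nrm n (Finsupp.single j (1 : 𝕜)) ≤ 1 := by
  classical
  apply nrm_le
  intro E _
  calc ∑ i ∈ E, ‖(Finsupp.single j (1 : 𝕜)) i‖ ≤ ∑ i ∈ E, (if i = j then (1 : ℝ) else 0) := by
        apply sum_le_sum
        intro i _
        rw [Finsupp.single_apply]
        by_cases h : j = i
        · rw [if_pos h, if_pos h.symm, norm_one]
        · rw [if_neg h, if_neg (Ne.symm h), norm_zero]
    _ ≤ 1 := by
        rw [sum_ite_eq']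
        split_ifs <;> norm_num

theorem weight_bound {n : ℕ} (c : ℕ+ → ℝ) (hc0 : ∀ j, 0 ≤ c j)
    (hc : ∀ E ∈ Sch n, ∑ j ∈ E, c j ≤ 1) (I : Finset ℕ+) (B : X 𝕜 n →L[𝕜] C₀(ℕ, 𝕜)) (l : ℕ) :
    ∑ j ∈ I, c j * ‖B (inc 𝕜 n (Finsupp.single j 1)) l‖ ^ 2 ≤ ‖B‖ ^ 2 := by
  classical
  set b : ℕ+ → 𝕜 := fun j => B (inc 𝕜 n (Finsupp.single j 1)) l with hb
  have hbj : ∀ j, ‖b j‖ ≤ ‖B‖ := by
    intro j
    refine (c0_coord_le _ l).trans ((B.le_opNorm _).trans ?_)
    rw [inc_norm]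
    exact mul_le_of_le_one_right B.opNorm_nonneg (nrm_single_le n j)
  have hθ : ∀ j, ∃ θ : 𝕜, ‖θ‖ ≤ 1 ∧ θ * b j = (‖b j‖ : 𝕜) := by
    intro j
    by_cases h : b j = 0
    · exact ⟨0, by simp, by rw [h]; simp⟩
    · refine ⟨(‖b j‖ : 𝕜) / b j, ?_, ?_⟩
      · rw [norm_div, RCLike.norm_ofReal, abs_norm, div_self (norm_ne_zero_iff.mpr h)]
      · rw [div_mul_cancel₀ _ h]
  choose θ hθ1 hθ2 using hθ
  set x : ℕ+ →₀ 𝕜 := ∑ j ∈ I, ((c j : 𝕜) * θ j) • Finsupp.single j 1 with hx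
  have hxj : ∀ i, ‖x i‖ ≤ c i := by
    intro i
    rw [hx, Finsupp.finsetSum_apply]
    simp_rw [Finsupp.smul_apply, Finsupp.single_apply, smul_eq_mul, mul_ite, mul_one, mul_zero]
    rw [sum_ite_eq']
    split_ifs
    · rw [norm_mul, RCLike.norm_ofReal, abs_of_nonneg (hc0 i)]
      exact mul_le_of_le_one_right (hc0 i) (hθ1 i)
    · rw [norm_zero]; exact hc0 i
  have hnx : nrm n x ≤ 1 := nrm_le fun E hE => (sum_le_sum fun j _ => hxj j).trans (hc E hE)
  have h1 : (B (inc 𝕜 n x)) l = ((∑ j ∈ I, c j * ‖b j‖ : ℝ) : 𝕜) := by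
    have e0 : B (inc 𝕜 n x) = ∑ j ∈ I, ((c j : 𝕜) * θ j) •
        B (inc 𝕜 n (Finsupp.single j 1)) := by
      rw [hx]
      simp only [map_sum, map_smul]
    have e : ∀ s : Finset ℕ+, (∑ j ∈ s, ((c j : 𝕜) * θ j) •
        B (inc 𝕜 n (Finsupp.single j 1))) l = ∑ j ∈ s, ((c j : 𝕜) * θ j) * b j := by
      intro s
      induction s using Finset.induction_on with
      | empty => simp
      | insert a s ha ih =>
        rw [sum_insert ha, sum_insert ha, ZeroAtInftyContinuousMap.add_apply, ih]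
        rfl
    rw [e0, e, RCLike.ofReal_sum]
    apply sum_congr rfl
    intro j _
    rw [mul_assoc, hθ2]
    push_cast
    ring
  have h2 : ∑ j ∈ I, c j * ‖b j‖ ≤ ‖B‖ := by
    have h3 : ‖(B (inc 𝕜 n x)) l‖ ≤ ‖B‖ := by
      refine (c0_coord_le _ l).trans ((B.le_opNorm _).trans ?_)
      rw [inc_norm]
      exact mul_le_of_le_one_right B.opNorm_nonneg hnx
    rw [h1, RCLike.norm_ofReal] at h3
    exact (le_abs_self _).trans h3
  calc ∑ j ∈ I, c j * ‖b j‖ ^ 2 ≤ ∑ j ∈ I, ‖B‖ * (c j * ‖b j‖) := by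
        apply sum_le_sum
        intro j _
        have h4 := hbj j
        have h5 := mul_nonneg (hc0 j) (norm_nonneg (b j))
        nlinarith
    _ = ‖B‖ * ∑ j ∈ I, c j * ‖b j‖ := by rw [mul_sum]
    _ ≤ ‖B‖ * ‖B‖ := mul_le_mul_of_nonneg_left h2 B.opNorm_nonneg
    _ = ‖B‖ ^ 2 := by ring

end Pool.Agent.R247.SX
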